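import Mathlib

/-!
# Squares with two distinct decimal digits: a counting bound

At most `4000 * K ^ (log 2 / log 10)` of the integers `1 ≤ k ≤ K` are such that the decimal
expansion of `k ^ 2` uses at most two different digits.
-/

namespace Pool.Agent.Results.MP_a5edac_nt.Count

/-- the set of decimal digits of `m` -/
def D (m : ℕ) : Finset ℕ := (Nat.digits 10 m).toFinset

/-- numbers below `10 ^ s` all of whose digits are `a` or `b` -/
def A (a b s : ℕ) : Finset ℕ :=
  (Finset.range (10 ^ s)).filter (fun T => D T ⊆ {a, b})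

theorem D_div (m : ℕ) : D (m / 10) ⊆ D m := by
  rcases Nat.eq_zero_or_pos m with rfl | hm
  · simp
  · intro d hd
    rw [D, List.mem_toFinset] at hd ⊢
    rw [Nat.digits_def' (by norm_num) hm]
    exact List.mem_cons_of_mem _ hd

theorem D_div_pow (m s : ℕ) : D (m / 10 ^ s) ⊆ D m := by
  induction s with
  | zero => simp
  | succ s ih =>
    rw [pow_succ, ← Nat.div_div_eq_div_mul]
    exact (D_div _).trans ih

theorem card_A (a b : ℕ) : ∀ s, (A a b s).card + 1 ≤ 2 ^ (s + 1) := by
  intro s
  induction s with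
  | zero =>
    have : (A a b 0).card ≤ (Finset.range (10 ^ 0)).card := Finset.card_filter_le _ _
    simp at this ⊢
    omega
  | succ s ih =>
    have hsub : A a b (s + 1) ⊆ insert 0 (((A a b s) ×ˢ ({a, b} : Finset ℕ)).image
        (fun p => 10 * p.1 + p.2)) := by
      intro T hT
      rw [A, Finset.mem_filter, Finset.mem_range] at hT
      rw [Finset.mem_insert]
      rcases Nat.eq_zero_or_pos T with h0 | h0
      · exact Or.inl h0
      · right
        rw [Finset.mem_image]
        refine ⟨(T / 10, T % 10), ?_, by simp only; omega⟩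
        rw [Finset.mem_product]
        refine ⟨?_, ?_⟩
        · rw [A, Finset.mem_filter, Finset.mem_range]
          refine ⟨?_, (D_div T).trans hT.2⟩
          have := hT.1
          rw [pow_succ] at this
          simp only
          omega
        · apply hT.2
          rw [D, List.mem_toFinset, Nat.digits_def' (by norm_num) h0]
          exact List.mem_cons_self
    have h1 := Finset.card_le_card hsub
    have h2 := Finset.card_insert_le 0 (((A a b s) ×ˢ ({a, b} : Finset ℕ)).image
        (fun p => 10 * p.1 + p.2))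
    have h3 : (((A a b s) ×ˢ ({a, b} : Finset ℕ)).image
        (fun p => 10 * p.1 + p.2)).card ≤ ((A a b s) ×ˢ ({a, b} : Finset ℕ)).card :=
      Finset.card_image_le
    rw [Finset.card_product] at h3
    have h4 : ({a, b} : Finset ℕ).card ≤ 2 := Finset.card_le_two
    have h5 : (A a b s).card * ({a, b} : Finset ℕ).card ≤ (A a b s).card * 2 :=
      Nat.mul_le_mul_left _ h4
    have h6 : 2 ^ (s + 1 + 1) = 2 * 2 ^ (s + 1) := by rw [pow_succ]; ring
    omega

/-- the block `10 ^ s ≤ k < 10 ^ (s + 1)` -/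
def B (a b s : ℕ) : Finset ℕ :=
  (Finset.Ico (10 ^ s) (10 ^ (s + 1))).filter (fun k => D (k ^ 2) ⊆ {a, b})

theorem card_B (a b s : ℕ) : (B a b s).card ≤ 5 * 2 ^ (s + 2) := by
  have h : (B a b s).card ≤ ((A a b (s + 1)) ×ˢ (Finset.range 5)).card := by
    apply Finset.card_le_card_of_injOn (fun k => (k ^ 2 / 10 ^ (s + 1), k % 5))
    · intro k hk
      simp only [B, Finset.coe_filter, Finset.mem_Ico, Set.mem_ofPred_eq] at hk
      simp only [Finset.coe_product, Set.mem_prod, Finset.mem_coe, Finset.mem_range]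
      refine ⟨?_, Nat.mod_lt _ (by norm_num)⟩
      rw [A, Finset.mem_filter, Finset.mem_range]
      refine ⟨?_, (D_div_pow _ _).trans hk.2⟩
      rw [Nat.div_lt_iff_lt_mul (by positivity)]
      have := hk.1.2
      calc k ^ 2 = k * k := by ring
        _ < 10 ^ (s + 1) * 10 ^ (s + 1) := Nat.mul_lt_mul'' this this
    · intro k hk l hl hkl
      simp only [B, Finset.coe_filter, Finset.mem_Ico, Set.mem_ofPred_eq] at hk hl
      simp only [Prod.mk.injEq] at hkl
      have key : ∀ k l : ℕ, 10 ^ s ≤ k → 10 ^ s ≤ l → k < l →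
          k ^ 2 / 10 ^ (s + 1) = l ^ 2 / 10 ^ (s + 1) → k % 5 = l % 5 → False := by
        intro k l h1 h2 h3 h4 h5
        obtain ⟨t, rfl⟩ := Nat.exists_eq_add_of_lt h3
        have h6 : 5 ≤ t + 1 := by omega
        have hp : 0 < 10 ^ (s + 1) := by positivity
        have h7 : (k + t + 1) ^ 2 < k ^ 2 + 10 ^ (s + 1) := by
          have a1 := Nat.div_add_mod (k ^ 2) (10 ^ (s + 1))
          have a2 := Nat.div_add_mod ((k + t + 1) ^ 2) (10 ^ (s + 1))
          have a3 := Nat.mod_lt ((k + t + 1) ^ 2) hp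
          rw [← h4] at a2
          omega
        have h8 : 10 ^ (s + 1) = 10 * 10 ^ s := by rw [pow_succ]; ring
        nlinarith
      rcases lt_trichotomy k l with h | h | h
      · exact (key k l hk.1.1 hl.1.1 h hkl.1 hkl.2).elim
      · exact h
      · exact (key l k hl.1.1 hk.1.1 h hkl.1.symm hkl.2.symm).elim
  rw [Finset.card_product, Finset.card_range] at h
  have h2 := card_A a b (s + 1)
  have h3 : s + 1 + 1 = s + 2 := rfl
  rw [h3] at h2
  omega

theorem card_total (t : ℕ) :
    ((Finset.Ico 1 (10 ^ t)).filter (fun k => (D (k ^ 2)).card ≤ 2)).card ≤ 2000 * 2 ^ t := by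
  induction t with
  | zero => simp
  | succ t ih =>
    have hsub : (Finset.Ico 1 (10 ^ (t + 1))).filter (fun k => (D (k ^ 2)).card ≤ 2) ⊆
        (Finset.Ico 1 (10 ^ t)).filter (fun k => (D (k ^ 2)).card ≤ 2) ∪
        ((Finset.range 10) ×ˢ (Finset.range 10)).biUnion (fun p => B p.1 p.2 t) := by
      intro k hk
      rw [Finset.mem_filter, Finset.mem_Ico] at hk
      rw [Finset.mem_union]
      rcases Nat.lt_or_ge k (10 ^ t) with h | h
      · left
        rw [Finset.mem_filter, Finset.mem_Ico]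
        exact ⟨⟨hk.1.1, h⟩, hk.2⟩
      · right
        rw [Finset.mem_biUnion]
        have hdig : ∀ d ∈ D (k ^ 2), d < 10 := by
          intro d hd
          rw [D, List.mem_toFinset] at hd
          exact Nat.digits_lt_base (by norm_num) hd
        obtain ⟨a, b, ha, hb, hab⟩ : ∃ a b, a < 10 ∧ b < 10 ∧ D (k ^ 2) ⊆ {a, b} := by
          rcases (by omega : (D (k ^ 2)).card = 0 ∨ (D (k ^ 2)).card = 1 ∨
            (D (k ^ 2)).card = 2) with h2 | h2 | h2
          · refine ⟨0, 0, by norm_num, by norm_num, ?_⟩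
            rw [Finset.card_eq_zero.1 h2]; exact Finset.empty_subset _
          · obtain ⟨a, ha⟩ := Finset.card_eq_one.1 h2
            refine ⟨a, a, hdig a (by rw [ha]; simp), hdig a (by rw [ha]; simp), ?_⟩
            rw [ha]; simp
          · obtain ⟨a, b, _, hab⟩ := Finset.card_eq_two.1 h2
            exact ⟨a, b, hdig a (by rw [hab]; simp), hdig b (by rw [hab]; simp), by rw [hab]⟩
        refine ⟨(a, b), by simp [ha, hb], ?_⟩
        rw [B, Finset.mem_filter, Finset.mem_Ico]
        exact ⟨⟨h, hk.1.2⟩, hab⟩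
    have h1 := Finset.card_le_card hsub
    have h2 := Finset.card_union_le
      ((Finset.Ico 1 (10 ^ t)).filter (fun k => (D (k ^ 2)).card ≤ 2))
      (((Finset.range 10) ×ˢ (Finset.range 10)).biUnion (fun p => B p.1 p.2 t))
    have h3 := Finset.card_biUnion_le_card_mul ((Finset.range 10) ×ˢ (Finset.range 10))
      (fun p => B p.1 p.2 t) (5 * 2 ^ (t + 2)) (fun p _ => card_B p.1 p.2 t)
    rw [Finset.card_product, Finset.card_range] at h3
    have h4 : 2 ^ (t + 2) = 4 * 2 ^ t := by rw [pow_add]; ring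
    have h5 : 2 ^ (t + 1) = 2 * 2 ^ t := by rw [pow_succ]; ring
    rw [h4] at h3
    rw [h5]
    omega

/-- Among the integers `1 ≤ k ≤ K` at most `4000 * K ^ (log 2 / log 10)` have a square whose
decimal expansion uses at most two different digits. -/
theorem result (K : ℕ) (hK : 1 ≤ K) :
    (((Finset.Icc 1 K).filter (fun k => (D (k ^ 2)).card ≤ 2)).card : ℝ) ≤
      4000 * (K : ℝ) ^ (Real.log 2 / Real.log 10) := by
  set t := Nat.log 10 K with ht
  have h1 : 10 ^ t ≤ K := Nat.pow_log_le_self 10 (by omega)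
  have h2 : K < 10 ^ (t + 1) := Nat.lt_pow_succ_log_self (by norm_num) K
  have h3 : ((Finset.Icc 1 K).filter (fun k => (D (k ^ 2)).card ≤ 2)).card ≤
      2000 * 2 ^ (t + 1) := by
    refine le_trans (Finset.card_le_card ?_) (card_total (t + 1))
    intro k hk
    rw [Finset.mem_filter, Finset.mem_Icc] at hk
    rw [Finset.mem_filter, Finset.mem_Ico]
    exact ⟨⟨hk.1.1, lt_of_le_of_lt hk.1.2 h2⟩, hk.2⟩
  have h4 : (((Finset.Icc 1 K).filter (fun k => (D (k ^ 2)).card ≤ 2)).card : ℝ) ≤
      2000 * 2 ^ (t + 1) := by exact_mod_cast h3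
  have hlog : 0 < Real.log 10 := Real.log_pos (by norm_num)
  have hlog2 : 0 < Real.log 2 := Real.log_pos (by norm_num)
  have h5 : ((10 : ℝ) ^ t) ^ (Real.log 2 / Real.log 10) = 2 ^ t := by
    rw [← Real.rpow_natCast, ← Real.rpow_mul (by norm_num)]
    have : (10 : ℝ) ^ ((t : ℝ) * (Real.log 2 / Real.log 10)) =
        ((10 : ℝ) ^ (Real.log 2 / Real.log 10)) ^ (t : ℝ) := by
      rw [← Real.rpow_mul (by norm_num)]; congr 1; ring
    rw [this]
    have h10 : (10 : ℝ) ^ (Real.log 2 / Real.log 10) = 2 := by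
      rw [Real.rpow_def_of_pos (by norm_num), mul_div_cancel₀ _ hlog.ne',
        Real.exp_log (by norm_num)]
    rw [h10, Real.rpow_natCast]
  have h6 : ((10 : ℝ) ^ t) ^ (Real.log 2 / Real.log 10) ≤
      (K : ℝ) ^ (Real.log 2 / Real.log 10) := by
    apply Real.rpow_le_rpow (by positivity) (by exact_mod_cast h1)
    positivity
  rw [h5] at h6
  calc (((Finset.Icc 1 K).filter (fun k => (D (k ^ 2)).card ≤ 2)).card : ℝ)
      ≤ 2000 * 2 ^ (t + 1) := h4
    _ = 4000 * 2 ^ t := by ring
    _ ≤ 4000 * (K : ℝ) ^ (Real.log 2 / Real.log 10) := by linarith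

end Pool.Agent.Results.MP_a5edac_nt.Count
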